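import Pool.Agent.MKE.Model
import Pool.Agent.NB.Main

set_option autoImplicit false

/-!
# MKE/Words (project MK, part E): fixed relators and one moving word

There are finitely many relators in the letters `1, ..., m`, a word `u0` and a computable sequence of
words `u n` and an undecidable predicate `p` such that: the relators and `u0` kill all letters; if
`p n` then `u n` and `u0` have the same value modulo the relators; if not `p n` then the relators and
`u n` do not kill all letters.
-/

namespace Pool.Agent.MKE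

/-- The value of a word. -/
def val {G : Type} [Group G] (y : ℕ → G) (w : List (ℕ × Bool)) : G :=
  FreeGroup.lift y (FreeGroup.mk w)

variable {G : Type} [Group G] (y : ℕ → G)

theorem val_append (a b : List (ℕ × Bool)) : val y (a ++ b) = val y a * val y b := by
  rw [val, val, val, ← map_mul, FreeGroup.mul_mk]

theorem val_inv (a : List (ℕ × Bool)) : val y (FreeGroup.invRev a) = (val y a)⁻¹ := by
  rw [val, val, ← map_inv, FreeGroup.inv_mk]

theorem val_true (g : ℕ) : val y [(g, true)] = y g := by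
  simp [val]

theorem val_false (g : ℕ) : val y [(g, false)] = (y g)⁻¹ := by
  simp [val]

/-- The relator `a⁻¹ b a = b ^ 2`, for words `a`, `b`. -/
def bs (a b : List (ℕ × Bool)) : List (ℕ × Bool) :=
  FreeGroup.invRev a ++ b ++ a ++ FreeGroup.invRev b ++ FreeGroup.invRev b

theorem val_bs (a b : List (ℕ × Bool)) :
    val y (bs a b) = 1 ↔ (val y a)⁻¹ * val y b * val y a = val y b ^ 2 := by
  rw [bs, val_append, val_append, val_append, val_append, val_inv, val_inv, mul_inv_eq_one,
    mul_inv_eq_iff_eq_mul, pow_two]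

section data

variable {N : ℕ} (R : List (FreeGroup (Fin N)))

/-- Shift of the letters. -/
def sh {N : ℕ} (w : List (Fin N × Bool)) : List (ℕ × Bool) := w.map fun a => ((a.1 : ℕ) + 1, a.2)

theorem val_sh (w : List (Fin N × Bool)) :
    val y (sh w) = FreeGroup.lift (fun i : Fin N => y ((i : ℕ) + 1)) (FreeGroup.mk w) := by
  simp [val, sh, FreeGroup.lift_mk, List.map_map, Function.comp_def]

/-- The words `x_j z`, `z`. -/
def Yw (N j : ℕ) : List (ℕ × Bool) :=
  if j < N then [(j + 1, true), (N + 1, true)] else [(N + 1, true)]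

/-- The relators. -/
def relsW (N : ℕ) (R : List (FreeGroup (Fin N))) : List (List (ℕ × Bool)) :=
  R.map (fun r => sh r.toWord) ++
  (List.range (N + 1)).map (fun j => bs [(N + 2 + j, true)] (Yw N j)) ++
  (List.range (N + 1)).map (fun j => bs [(2 * N + 3, true)] [(N + 2 + j, true)]) ++
  [bs [(2 * N + 4, true)] [(2 * N + 3, true)]]

/-- The fixed word `d⁻¹`. -/
def u0W (N : ℕ) : List (ℕ × Bool) := [(2 * N + 4, false)]

/-- The moving word `d⁻¹ [w, z]`. -/
def uW (N : ℕ) (w : List (Fin N × Bool)) : List (ℕ × Bool) :=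
  [(2 * N + 4, false)] ++ sh w ++ [(N + 1, true)] ++ FreeGroup.invRev (sh w) ++ [(N + 1, false)]

theorem val_uW (w : List (Fin N × Bool)) : val y (uW N w) = (y (2 * N + 4))⁻¹ *
    (val y (sh w) * y (N + 1) * (val y (sh w))⁻¹ * (y (N + 1))⁻¹) := by
  rw [uW, val_append, val_append, val_append, val_append, val_inv, val_true, val_false, val_false]
  group

theorem val_Yw (j : ℕ) : val y (Yw N j) = if j < N then y (j + 1) * y (N + 1) else y (N + 1) := by
  unfold Yw
  split
  · rw [show [(j + 1, true), (N + 1, true)] = [(j + 1, true)] ++ [(N + 1, true)] from rfl,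
      val_append, val_true, val_true]
  · rw [val_true]

theorem relsW_iff : (∀ r ∈ relsW N R, val y r = 1) ↔
    (∀ r ∈ R, FreeGroup.lift (fun i : Fin N => y ((i : ℕ) + 1)) r = 1) ∧
    (∀ j < N + 1, (y (N + 2 + j))⁻¹ * val y (Yw N j) * y (N + 2 + j) = val y (Yw N j) ^ 2) ∧
    (∀ j < N + 1, (y (2 * N + 3))⁻¹ * y (N + 2 + j) * y (2 * N + 3) = y (N + 2 + j) ^ 2) ∧
    (y (2 * N + 4))⁻¹ * y (2 * N + 3) * y (2 * N + 4) = y (2 * N + 3) ^ 2 := by
  simp only [relsW, List.mem_append, List.mem_map, List.mem_range, List.mem_singleton, or_imp,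
    forall_and, forall_exists_index, and_imp, forall_apply_eq_imp_iff₂, forall_eq, val_bs, val_true,
    val_sh, FreeGroup.mk_toWord]
  tauto

end data

theorem letters_inv {m : ℕ} {a : List (ℕ × Bool)} (h : ∀ x ∈ a, 1 ≤ x.1 ∧ x.1 ≤ m) :
    ∀ x ∈ FreeGroup.invRev a, 1 ≤ x.1 ∧ x.1 ≤ m := by
  intro x hx
  rw [FreeGroup.invRev, List.mem_reverse, List.mem_map] at hx
  obtain ⟨x', hx', rfl⟩ := hx
  exact h x' hx'

theorem letters_app {m : ℕ} {a b : List (ℕ × Bool)} (h : ∀ x ∈ a, 1 ≤ x.1 ∧ x.1 ≤ m)
    (h' : ∀ x ∈ b, 1 ≤ x.1 ∧ x.1 ≤ m) : ∀ x ∈ a ++ b, 1 ≤ x.1 ∧ x.1 ≤ m := by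
  intro x hx
  rcases List.mem_append.1 hx with hx | hx
  · exact h x hx
  · exact h' x hx

theorem letters_single {m g : ℕ} {b : Bool} (h : 1 ≤ g) (h' : g ≤ m) :
    ∀ x ∈ [((g, b) : ℕ × Bool)], 1 ≤ x.1 ∧ x.1 ≤ m := by
  intro x hx
  rw [List.mem_singleton] at hx
  subst hx
  exact ⟨h, h'⟩

theorem letters_bs {m : ℕ} {a b : List (ℕ × Bool)} (h : ∀ x ∈ a, 1 ≤ x.1 ∧ x.1 ≤ m)
    (h' : ∀ x ∈ b, 1 ≤ x.1 ∧ x.1 ≤ m) : ∀ x ∈ bs a b, 1 ≤ x.1 ∧ x.1 ≤ m :=
  letters_app (letters_app (letters_app (letters_app (letters_inv h) h') h) (letters_inv h'))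
    (letters_inv h')

theorem letters_sh {N : ℕ} (w : List (Fin N × Bool)) :
    ∀ x ∈ sh w, 1 ≤ x.1 ∧ x.1 ≤ 2 * N + 4 := by
  intro x hx
  obtain ⟨x', -, rfl⟩ := List.mem_map.1 hx
  have := x'.1.isLt
  constructor
  · simp
  · simp only
    omega

theorem letters_uW (N : ℕ) (w : List (Fin N × Bool)) :
    ∀ x ∈ uW N w, 1 ≤ x.1 ∧ x.1 ≤ 2 * N + 4 :=
  letters_app (letters_app (letters_app (letters_app (letters_single (by omega) le_rfl)
    (letters_sh w)) (letters_single (by omega) (by omega))) (letters_inv (letters_sh w)))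
    (letters_single (by omega) (by omega))

theorem letters_Yw (N j : ℕ) (hj : j < N + 1) :
    ∀ x ∈ Yw N j, 1 ≤ x.1 ∧ x.1 ≤ 2 * N + 4 := by
  unfold Yw
  split
  · exact letters_app (a := [(j + 1, true)]) (letters_single (by omega) (by omega))
      (letters_single (by omega) (by omega))
  · exact letters_single (by omega) (by omega)

theorem letters_relsW (N : ℕ) (R : List (FreeGroup (Fin N))) :
    ∀ r ∈ relsW N R, ∀ x ∈ r, 1 ≤ x.1 ∧ x.1 ≤ 2 * N + 4 := by
  intro r hr
  simp only [relsW, List.mem_append, List.mem_map, List.mem_range, List.mem_singleton] at hr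
  rcases hr with ((⟨a, -, rfl⟩ | ⟨j, hj, rfl⟩) | ⟨j, hj, rfl⟩) | rfl
  · exact letters_sh _
  · exact letters_bs (letters_single (by omega) (by omega)) (letters_Yw N j hj)
  · exact letters_bs (letters_single (by omega) (by omega)) (letters_single (by omega) (by omega))
  · exact letters_bs (letters_single (by omega) (by omega)) (letters_single (by omega) (by omega))

theorem computable_uW (N : ℕ) : Computable (uW N) := by
  have hsh : Primrec (sh (N := N)) := by
    refine Primrec.list_map Primrec.id ?_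
    exact Primrec₂.pair.comp₂ (Primrec.succ.comp ((Primrec.fin_val (n := N)).comp
      (Primrec.fst.comp Primrec.snd))).to₂ (Primrec.snd.comp Primrec.snd).to₂
  have hinv : Primrec (FreeGroup.invRev (α := ℕ)) := by
    refine Primrec.list_reverse.comp (Primrec.list_map Primrec.id ?_)
    exact Primrec₂.pair.comp₂ (Primrec.fst.comp Primrec.snd).to₂
      (Primrec.not.comp (Primrec.snd.comp Primrec.snd)).to₂
  refine Primrec.to_comp ?_
  unfold uW
  exact Primrec.list_append.comp (Primrec.list_append.comp (Primrec.list_append.comp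
    (Primrec.list_append.comp (Primrec.const _) hsh) (Primrec.const _)) (hinv.comp hsh))
    (Primrec.const _)

theorem bs_one {G : Type} [Group G] {a b : G} (h : a⁻¹ * b * a = b ^ 2) (ha : a = 1) : b = 1 := by
  subst ha
  rw [inv_one, one_mul, mul_one, pow_two] at h
  exact (left_eq_mul.1 h)

theorem words : ∃ (p : ℕ → Prop) (m : ℕ) (rels : List (List (ℕ × Bool))) (u0 : List (ℕ × Bool))
    (u : ℕ → List (ℕ × Bool)),
    REPred p ∧ (∀ q : ℕ → Prop, REPred q → q ≤₀ p) ∧ ¬ ComputablePred p ∧ Computable u ∧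
    (∀ r ∈ rels, ∀ x ∈ r, 1 ≤ x.1 ∧ x.1 ≤ m) ∧ (∀ x ∈ u0, 1 ≤ x.1 ∧ x.1 ≤ m) ∧
    (∀ n, ∀ x ∈ u n, 1 ≤ x.1 ∧ x.1 ≤ m) ∧
    (∀ n, p n → ∀ (G : Type) [Group G] (y : ℕ → G), (∀ r ∈ rels, val y r = 1) →
      val y (u n) = val y u0) ∧
    (∀ n, ¬ p n → ∃ (G : Type) (_ : Group G) (y : ℕ → G), (∀ r ∈ rels, val y r = 1) ∧
      val y (u n) = 1 ∧ ∃ g, 1 ≤ g ∧ g ≤ m ∧ y g ≠ 1) ∧
    (∀ (G : Type) [Group G] (y : ℕ → G), (∀ r ∈ rels, val y r = 1) → val y u0 = 1 →
      ∀ g, 1 ≤ g → g ≤ m → y g = 1) := by
  obtain ⟨N, rels0, w, hfin, hw, hre, hcomp, hord⟩ := NB.novikov_boone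
  set R : List (FreeGroup (Fin N)) := hfin.toFinset.toList with hR
  have hmem : ∀ r, r ∈ R ↔ r ∈ rels0 := by
    intro r
    rw [hR, Finset.mem_toList, Set.Finite.mem_toFinset]
  refine ⟨fun n => PresentedGroup.mk rels0 (FreeGroup.mk (w n)) = 1, 2 * N + 4, relsW N R,
    u0W N, fun n => uW N (w n), hre, hcomp, NB.not_computable_of_complete _ hcomp,
    (computable_uW N).comp hw, letters_relsW N R, letters_single (by omega) le_rfl,
    fun n => letters_uW N (w n), ?_, ?_, ?_⟩
  · intro n hn G _ y hy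
    obtain ⟨h1, -, -, -⟩ := (relsW_iff y R).1 hy
    have h2 : val y (sh (w n)) = 1 := by
      rw [val_sh]
      have h3 := congrArg (PresentedGroup.toGroup (f := fun i : Fin N => y ((i : ℕ) + 1))
        (rels := rels0) (fun r hr => h1 r ((hmem r).2 hr))) hn
      rw [map_one] at h3
      exact h3
    rw [val_uW, h2, u0W, val_false]
    group
  · intro n hn
    have hw' := (hord n).resolve_left hn
    obtain ⟨K, _, ρ, z, π, hπ, hπz, hv⟩ := exists_base _ hw'
    set W := PresentedGroup.mk rels0 (FreeGroup.mk (w n)) with hW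
    set v := ρ W * z * (ρ W)⁻¹ * z⁻¹ with hvdef
    let yy : ℕ → K := fun j => if h : j < N then ρ (PresentedGroup.of ⟨j, h⟩) * z else z
    have hπv : π v = 1 := by
      rw [hvdef, map_mul, map_mul, map_mul, map_inv, map_inv, hπ]
      group
    have hπy : ∀ j, π (yy j) = Multiplicative.ofAdd 1 := by
      intro j
      simp only [yy]
      split
      · rw [map_mul, hπ, hπz, one_mul]
      · exact hπz
    obtain ⟨U, _, ι, e, b, hι, hve, hb⟩ := exists_tower v hv (N + 1) yy (by
      intro j k l h
      have h2 := congrArg π h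
      rw [map_zpow, map_zpow, hπv, hπy, one_zpow, ← ofAdd_zsmul] at h2
      have h3 := congrArg Multiplicative.toAdd h2
      simpa using h3)
    let y : ℕ → U := fun g =>
      if h : 1 ≤ g ∧ g ≤ N then ι (ρ (PresentedGroup.of ⟨g - 1, by omega⟩))
      else if g = N + 1 then ι z
      else if g ≤ 2 * N + 2 then b (g - (N + 2))
      else if g = 2 * N + 3 then e
      else ι v
    have yx : ∀ i : Fin N, y ((i : ℕ) + 1) = ι (ρ (PresentedGroup.of i)) := by
      intro i
      have hi := i.isLt
      simp only [y]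
      rw [dif_pos ⟨by omega, by omega⟩]
      congr 3
    have yz : y (N + 1) = ι z := by
      simp only [y]
      rw [dif_neg (by omega), if_pos trivial]
    have yb : ∀ j < N + 1, y (N + 2 + j) = b j := by
      intro j hj
      simp only [y]
      rw [dif_neg (by omega), if_neg (by omega), if_pos (by omega)]
      congr 1
      omega
    have ye : y (2 * N + 3) = e := by
      simp only [y]
      rw [dif_neg (by omega), if_neg (by omega), if_neg (by omega), if_pos trivial]
    have yd : y (2 * N + 4) = ι v := by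
      simp only [y]
      rw [dif_neg (by omega), if_neg (by omega), if_neg (by omega), if_neg (by omega)]
    have hlift : ∀ g : FreeGroup (Fin N), FreeGroup.lift (fun i : Fin N => y ((i : ℕ) + 1)) g =
        ι (ρ (PresentedGroup.mk rels0 g)) := by
      intro g
      have : FreeGroup.lift (fun i : Fin N => y ((i : ℕ) + 1)) =
          (ι.comp ρ).comp (PresentedGroup.mk rels0) := by
        ext i
        simp only [FreeGroup.lift_apply_of, MonoidHom.comp_apply]
        exact yx i
      rw [this]
      rfl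
    have yY : ∀ j < N + 1, val y (Yw N j) = ι (yy j) := by
      intro j hj
      rw [val_Yw]
      simp only [yy]
      split
      · rename_i h
        rw [map_mul, yz, yx ⟨j, h⟩]
      · exact yz
    refine ⟨U, inferInstance, y, (relsW_iff y R).2 ⟨?_, ?_, ?_, ?_⟩, ?_, N + 1, by omega, by omega, ?_⟩
    · intro r hr
      rw [hlift, PresentedGroup.one_of_mem ((hmem r).1 hr), map_one, map_one]
    · intro j hj
      rw [yY j hj, yb j hj]
      exact (hb j hj).2
    · intro j hj
      rw [ye, yb j hj]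
      exact (hb j hj).1
    · rw [yd, ye]
      exact hve
    · rw [val_uW, val_sh, hlift, yd, yz, ← hW, hvdef]
      simp only [map_mul, map_inv]
      group
    · rw [yz]
      intro h
      have h2 : z = 1 := hι (by rw [h, map_one])
      rw [h2, map_one] at hπz
      have h3 := congrArg Multiplicative.toAdd hπz
      simp at h3
  · intro G _ y hy h0 g hg1 hg2
    obtain ⟨h1, h2, h3, h4⟩ := (relsW_iff y R).1 hy
    have hd : y (2 * N + 4) = 1 := by
      rw [u0W, val_false] at h0
      exact inv_eq_one.1 h0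
    have he : y (2 * N + 3) = 1 := bs_one h4 hd
    have hb : ∀ j < N + 1, y (N + 2 + j) = 1 := fun j hj => bs_one (h3 j hj) he
    have hY : ∀ j < N + 1, val y (Yw N j) = 1 := fun j hj => bs_one (h2 j hj) (hb j hj)
    have hz : y (N + 1) = 1 := by
      have := hY N (by omega)
      rwa [val_Yw, if_neg (by omega)] at this
    have hx : ∀ j < N, y (j + 1) = 1 := by
      intro j hj
      have := hY j (by omega)
      rwa [val_Yw, if_pos hj, hz, mul_one] at this
    rcases Nat.lt_or_ge N g with h | h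
    · rcases Nat.lt_or_ge g (2 * N + 3) with h' | h'
      · rcases Nat.eq_or_lt_of_le h with h'' | h''
        · rw [← h'']
          exact hz
        · have := hb (g - (N + 2)) (by omega)
          rwa [show N + 2 + (g - (N + 2)) = g by omega] at this
      · rcases Nat.eq_or_lt_of_le h' with h'' | h''
        · rw [← h'']
          exact he
        · rw [show g = 2 * N + 4 by omega]
          exact hd
    · have := hx (g - 1) (by omega)
      rwa [show g - 1 + 1 = g by omega] at this

end Pool.Agent.MKE
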