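import Mathlib

set_option autoImplicit false

/-!
# MKE/Amalg (project MK, part E): free pairs in amalgams, conjugation of free pairs
-/

namespace Pool.Agent.MKE

open Monoid Function

/-- The free group of rank two, as a coproduct. -/
abbrev F2 : Type := CoprodI (fun _ : Bool => Multiplicative ℤ)

/-- The homomorphism given by a pair. -/
noncomputable def pair {G : Type} [Group G] (x y : G) : F2 →* G :=
  CoprodI.lift (fun i : Bool => zpowersHom G (cond i x y))

theorem lift_injective {ι : Type} {G : ι → Type} [∀ i, Group (G i)] {H : Type} [Group H]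
    (φ : ∀ i, H →* G i) (hφ : ∀ i, Injective (φ i)) (c : ∀ i, G i)
    (hc : ∀ i (n : ℤ), c i ^ n ∈ (φ i).range → n = 0) :
    Injective (CoprodI.lift (fun i => (PushoutI.of i).comp (zpowersHom (G i) (c i))) :
      CoprodI (fun _ : ι => Multiplicative ℤ) →* PushoutI φ) := by
  classical
  rw [injective_iff_map_eq_one]
  intro x hx
  obtain ⟨w, rfl⟩ : ∃ w : CoprodI.Word (fun _ : ι => Multiplicative ℤ), w.prod = x :=
    ⟨CoprodI.Word.equiv x, CoprodI.Word.equiv.symm_apply_apply x⟩
  let f : (Σ _ : ι, Multiplicative ℤ) → Σ i, G i :=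
    fun l => ⟨l.1, c l.1 ^ (Multiplicative.toAdd l.2)⟩
  have hne : ∀ l ∈ w.toList, Multiplicative.toAdd l.2 ≠ 0 := fun l hl h => w.ne_one l hl h
  have hr : ∀ l ∈ w.toList, (f l).2 ∉ (φ (f l).1).range := by
    intro l hl h
    exact hne l hl (hc l.1 _ h)
  let w' : CoprodI.Word G := ⟨w.toList.map f, by
      intro l hl
      obtain ⟨l', hl', rfl⟩ := List.mem_map.1 hl
      intro h1
      apply hr l' hl'
      rw [h1]
      exact one_mem _, by
      rw [List.isChain_map]
      exact w.chain_ne⟩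
  have hw' : PushoutI.Reduced φ w' := by
    intro l hl
    obtain ⟨l', hl', rfl⟩ := List.mem_map.1 hl
    exact hr l' hl'
  have hprod : PushoutI.ofCoprodI w'.prod = (CoprodI.lift
      (fun i => (PushoutI.of i).comp (zpowersHom (G i) (c i))) :
      CoprodI (fun _ : ι => Multiplicative ℤ) →* PushoutI φ) w.prod := by
    rw [CoprodI.Word.prod, CoprodI.Word.prod, map_list_prod, map_list_prod]
    simp only [w', List.map_map]
    congr 1
  have he := hw'.eq_empty_of_mem_range hφ (by rw [hprod, hx]; exact one_mem _)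
  have h2 : w.toList.map f = [] := congrArg CoprodI.Word.toList he
  rw [List.map_eq_nil_iff] at h2
  rw [CoprodI.Word.prod, h2]
  rfl

theorem exists_conj {K F : Type} [Group K] [Group F] (f g : F →* K) (hf : Injective f)
    (hg : Injective g) : ∃ (U : Type) (_ : Group U) (ι : K →* U) (t : U), Injective ι ∧
      ∀ a, ι (f a) = t * ι (g a) * t⁻¹ := by
  let φ : g.range ≃* f.range := (MonoidHom.ofInjective hg).symm.trans (MonoidHom.ofInjective hf)
  refine ⟨HNNExtension K g.range f.range φ, inferInstance, HNNExtension.of, HNNExtension.t,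
    HNNExtension.of_injective φ, ?_⟩
  intro a
  have h := HNNExtension.equiv_eq_conj (φ := φ) (MonoidHom.ofInjective hg a)
  have h2 : φ (MonoidHom.ofInjective hg a) = MonoidHom.ofInjective hf a := by
    simp [φ]
  rw [h2] at h
  exact h

theorem exists_conj_family {K F : Type} [Group K] [Group F] (f g : ℕ → F →* K)
    (hf : ∀ i, Injective (f i)) (hg : ∀ i, Injective (g i)) (n : ℕ) :
    ∃ (U : Type) (_ : Group U) (ι : K →* U), Injective ι ∧
      ∀ i < n, ∃ t, ∀ a, ι (f i a) = t * ι (g i a) * t⁻¹ := by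
  induction n with
  | zero => exact ⟨K, inferInstance, MonoidHom.id K, fun _ _ h => h, fun i hi => absurd hi (by omega)⟩
  | succ n ih =>
    obtain ⟨U, _, ι, hι, ht⟩ := ih
    obtain ⟨V, _, κ, t, hκ, hc⟩ := exists_conj (ι.comp (f n)) (ι.comp (g n))
      (hι.comp (hf n)) (hι.comp (hg n))
    refine ⟨V, inferInstance, κ.comp ι, hκ.comp hι, ?_⟩
    intro i hi
    rcases Nat.lt_succ_iff_lt_or_eq.1 hi with h | h
    · obtain ⟨s, hs⟩ := ht i h
      exact ⟨κ s, fun a => by simp [hs a]⟩
    · subst h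
      exact ⟨t, hc⟩

/-- `x ↦ x / 2`. -/
noncomputable def bsA : Equiv.Perm ℚ :=
  MulAction.toPermHom ℚˣ ℚ (Units.mk0 (1 / 2) (by norm_num))

/-- `x ↦ x + 1`. -/
noncomputable def bsB : Equiv.Perm ℚ := Equiv.addRight 1

theorem bsA_apply (x : ℚ) : bsA x = 1 / 2 * x := rfl

theorem bsB_apply (x : ℚ) : bsB x = x + 1 := rfl

theorem bs_rel : bsA⁻¹ * bsB * bsA = bsB ^ 2 := by
  rw [mul_assoc, inv_mul_eq_iff_eq_mul]
  ext x
  simp only [Equiv.Perm.mul_apply, bsA_apply, bsB_apply, pow_two]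
  ring

theorem bsA_zpow (n : ℤ) (x : ℚ) : (bsA ^ n) x = (1 / 2) ^ n * x := by
  rw [bsA, ← map_zpow]
  change ((Units.mk0 (1 / 2 : ℚ) _ ^ n : ℚˣ) : ℚ) * x = _
  simp

theorem bsB_zpow (n : ℤ) (x : ℚ) : (bsB ^ n) x = x + n := by
  induction n with
  | zero => simp
  | succ n ih =>
    rw [add_comm, zpow_add, Equiv.Perm.mul_apply, ih, zpow_one, bsB_apply]
    push_cast
    ring
  | pred n ih =>
    rw [sub_eq_add_neg, add_comm, zpow_add, Equiv.Perm.mul_apply, ih, zpow_neg_one,
      Equiv.Perm.inv_eq_iff_eq, bsB_apply]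
    push_cast
    ring

theorem bsA_bsB (m n : ℤ) (h : bsA ^ m = bsB ^ n) : m = 0 ∧ n = 0 := by
  have h0 := congrArg (fun σ : Equiv.Perm ℚ => σ 0) h
  have h1 := congrArg (fun σ : Equiv.Perm ℚ => σ 1) h
  simp only [bsA_zpow, bsB_zpow, mul_zero, zero_add, mul_one] at h0 h1
  have hn : n = 0 := by exact_mod_cast h0.symm
  subst hn
  refine ⟨?_, rfl⟩
  rw [Int.cast_zero, add_zero] at h1
  by_contra hm
  rcases lt_or_gt_of_ne hm with hm | hm
  · have := one_lt_zpow_of_neg₀ (a := (1 / 2 : ℚ)) (by norm_num) (by norm_num) hm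
    linarith
  · have := zpow_lt_one₀ (a := (1 / 2 : ℚ)) (by norm_num) (by norm_num) hm
    linarith

end Pool.Agent.MKE
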