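import Pool.Agent.MKE.Amalg

set_option autoImplicit false

/-!
# MKE/Model (project MK, part E): the tower of Baumslag-Solitar relations
-/

namespace Pool.Agent.MKE

open Monoid Function

theorem bsA_inf (n : ℤ) (h : bsA ^ n = 1) : n = 0 :=
  (bsA_bsB n 0 (by rw [h, zpow_zero])).1

theorem bsB_inf (n : ℤ) (h : bsB ^ n = 1) : n = 0 :=
  (bsA_bsB 0 n (by rw [h, zpow_zero])).2

theorem zpowers_injective {G : Type} [Group G] (v : G) (hv : ∀ n : ℤ, v ^ n = 1 → n = 0) :
    Injective (zpowersHom G v) := by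
  rw [injective_iff_map_eq_one]
  intro x hx
  rw [zpowersHom_apply] at hx
  exact hv _ hx

/-- `e ▹ b ▹ y` with `e`, `y` free. -/
theorem exists_hig : ∃ (P : Type) (_ : Group P) (e b y : P), e⁻¹ * b * e = b ^ 2 ∧
    b⁻¹ * y * b = y ^ 2 ∧ Injective (pair e y) := by
  let φ : ∀ _ : Bool, Multiplicative ℤ →* Equiv.Perm ℚ := fun i =>
    zpowersHom (Equiv.Perm ℚ) (cond i bsB bsA)
  have hφ : ∀ i, Injective (φ i) := by
    intro i
    cases i
    · exact zpowers_injective _ bsA_inf
    · exact zpowers_injective _ bsB_inf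
  let oT : Equiv.Perm ℚ →* PushoutI φ :=
    PushoutI.of (G := fun _ : Bool => Equiv.Perm ℚ) (φ := φ) true
  let oF : Equiv.Perm ℚ →* PushoutI φ :=
    PushoutI.of (G := fun _ : Bool => Equiv.Perm ℚ) (φ := φ) false
  have hb : oT bsB = oF bsA := by
    have h1 := PushoutI.of_apply_eq_base φ true (Multiplicative.ofAdd 1)
    have h2 := PushoutI.of_apply_eq_base φ false (Multiplicative.ofAdd 1)
    simp only [φ, zpowersHom_apply, toAdd_ofAdd, zpow_one, cond_true, cond_false] at h1 h2
    exact h1.trans h2.symm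
  refine ⟨PushoutI φ, inferInstance, oT bsA, oT bsB, oF bsB, ?_, ?_, ?_⟩
  · rw [← map_inv, ← map_mul, ← map_mul, ← map_pow, bs_rel]
  · rw [hb, ← map_inv, ← map_mul, ← map_mul, ← map_pow, bs_rel]
  · have h := lift_injective φ hφ (fun i => cond i bsA bsB) (by
      intro i n hn
      obtain ⟨m, hm⟩ := hn
      cases i
      · exact (bsA_bsB _ _ hm).2
      · exact (bsA_bsB _ _ hm.symm).1)
    have h5 : pair (oT bsA) (oF bsB) = CoprodI.lift (fun i =>
        (PushoutI.of (φ := φ) i).comp (zpowersHom (Equiv.Perm ℚ) (cond i bsA bsB))) := by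
      unfold pair
      congr 1
      funext i
      cases i <;> ext <;> simp [oT, oF]
    rw [h5]
    exact h

/-- The family of the two factors. -/
def Fam (K : Type) : Bool → Type
  | true => Equiv.Perm ℚ
  | false => K

instance (K : Type) [Group K] : ∀ i, Group (Fam K i)
  | true => inferInstanceAs (Group (Equiv.Perm ℚ))
  | false => inferInstanceAs (Group K)

/-- Every `v` of infinite order has some `e` with `v ▹ e`, free from all elements of infinite order
modulo `v`. -/
theorem exists_bs {K : Type} [Group K] (v : K) (hv : ∀ n : ℤ, v ^ n = 1 → n = 0) :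
    ∃ (P : Type) (_ : Group P) (i : K →* P) (e : P), Injective i ∧ (i v)⁻¹ * e * i v = e ^ 2 ∧
      ∀ y : K, (∀ n m : ℤ, y ^ n = v ^ m → n = 0) → Injective (pair e (i y)) := by
  let φ : ∀ i : Bool, Multiplicative ℤ →* Fam K i := fun i => match i with
    | true => zpowersHom (Equiv.Perm ℚ) bsA
    | false => zpowersHom K v
  have hφ : ∀ i, Injective (φ i) := by
    intro i
    cases i
    · exact zpowers_injective _ hv
    · exact zpowers_injective _ bsA_inf
  let oT : Equiv.Perm ℚ →* PushoutI φ := PushoutI.of (G := Fam K) (φ := φ) true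
  let oF : K →* PushoutI φ := PushoutI.of (G := Fam K) (φ := φ) false
  have hb : oT bsA = oF v := by
    have h1 := PushoutI.of_apply_eq_base φ true (Multiplicative.ofAdd 1)
    have h2 := PushoutI.of_apply_eq_base φ false (Multiplicative.ofAdd 1)
    have h3 : φ true (Multiplicative.ofAdd 1) = bsA := zpow_one bsA
    have h4 : φ false (Multiplicative.ofAdd 1) = v := zpow_one v
    rw [h3] at h1
    rw [h4] at h2
    exact h1.trans h2.symm
  refine ⟨PushoutI φ, inferInstance, oF, oT bsB, PushoutI.of_injective hφ false, ?_, ?_⟩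
  · rw [← hb, ← map_inv, ← map_mul, ← map_mul, ← map_pow, bs_rel]
  · intro y hy
    let c : ∀ i, Fam K i := fun i => match i with
      | true => bsB
      | false => y
    have h := lift_injective φ hφ c (by
      intro i n hn
      obtain ⟨m, hm⟩ := hn
      cases i
      · exact hy n (Multiplicative.toAdd m) hm.symm
      · exact (bsA_bsB _ _ hm).2)
    have h5 : pair (oT bsB) (oF y) = CoprodI.lift (fun i =>
        (PushoutI.of (φ := φ) i).comp (zpowersHom (Fam K i) (c i))) := by
      unfold pair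
      congr 1
      funext i
      cases i
      · ext
        simp [oF, c]
        rfl
      · ext
        simp [oT, c]
        rfl
    rw [h5]
    exact h

theorem exists_base {H : Type} [Group H] (w : H) (hw : ¬ IsOfFinOrder w) :
    ∃ (K : Type) (_ : Group K) (ρ : H →* K) (z : K) (π : K →* Multiplicative ℤ),
      (∀ h, π (ρ h) = 1) ∧ π z = Multiplicative.ofAdd 1 ∧
      ∀ n : ℤ, (ρ w * z * (ρ w)⁻¹ * z⁻¹) ^ n = 1 → n = 0 := by
  let τ : H →* Equiv.Perm H := MulAction.toPermHom H H
  let S : Equiv.Perm H × Equiv.Perm H →* Equiv.Perm (H ⊕ H) := Equiv.Perm.sumCongrHom H H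
  let ρ : H →* Equiv.Perm (H ⊕ H) × Multiplicative ℤ :=
    (S.comp (τ.prod 1)).prod 1
  let z : Equiv.Perm (H ⊕ H) × Multiplicative ℤ := (Equiv.sumComm H H, Multiplicative.ofAdd 1)
  refine ⟨Equiv.Perm (H ⊕ H) × Multiplicative ℤ, inferInstance, ρ, z, MonoidHom.snd _ _,
    fun h => rfl, rfl, ?_⟩
  intro n hn
  have h1 : (ρ w * z * (ρ w)⁻¹ * z⁻¹).1 = S (τ w, τ w⁻¹) := by
    change S (τ w, 1) * Equiv.sumComm H H * (S (τ w, 1))⁻¹ * (Equiv.sumComm H H)⁻¹ = _
    rw [mul_inv_eq_iff_eq_mul, mul_inv_eq_iff_eq_mul]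
    ext x
    rcases x with x | x
    · simp [S, τ]
    · simp [S, τ]
  have h2 : S (τ w, τ w⁻¹) ^ n = 1 := by
    rw [← h1, ← Prod.pow_fst, hn]
    rfl
  rw [← map_zpow] at h2
  have h3 : ((τ w, τ w⁻¹) ^ n : Equiv.Perm H × Equiv.Perm H) = (τ (w ^ n), τ (w⁻¹ ^ n)) := by
    rw [map_zpow, map_zpow]; rfl
  rw [h3] at h2
  have h4 := congrArg (fun σ : Equiv.Perm (H ⊕ H) => σ (Sum.inl 1)) h2
  simp only [S, τ, Equiv.Perm.sumCongrHom_apply, Equiv.Perm.sumCongr_apply, Sum.map_inl,
    MulAction.toPermHom_apply, MulAction.toPerm_apply, smul_eq_mul, mul_one,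
    Equiv.Perm.one_apply] at h4
  by_contra hn0
  apply hw
  rw [isOfFinOrder_iff_zpow_eq_one]
  exact ⟨n, hn0, Sum.inl_injective h4⟩

theorem exists_tower {K : Type} [Group K] (v : K) (hv : ∀ n : ℤ, v ^ n = 1 → n = 0) (n : ℕ)
    (y : ℕ → K) (hy : ∀ i, ∀ k m : ℤ, y i ^ k = v ^ m → k = 0) :
    ∃ (U : Type) (_ : Group U) (ι : K →* U) (e : U) (b : ℕ → U), Injective ι ∧
      (ι v)⁻¹ * e * ι v = e ^ 2 ∧ ∀ i < n, e⁻¹ * b i * e = b i ^ 2 ∧
        (b i)⁻¹ * ι (y i) * b i = ι (y i) ^ 2 := by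
  obtain ⟨P, _, i, e, hi, hve, hfree⟩ := exists_bs v hv
  obtain ⟨P', _, e', b', y', h1, h2, hp⟩ := exists_hig
  have hl : Injective (MonoidHom.inl P P') := fun a b h => congrArg Prod.fst h
  have hr : Injective (MonoidHom.inr P P') := fun a b h => congrArg Prod.snd h
  obtain ⟨U, _, κ, hκ, ht⟩ := exists_conj_family
    (fun j => (MonoidHom.inl P P').comp (pair e (i (y j))))
    (fun _ => (MonoidHom.inr P P').comp (pair e' y'))
    (fun j => hl.comp (hfree (y j) (hy j))) (fun _ => hr.comp hp) n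
  choose! t ht using ht
  refine ⟨U, inferInstance, (κ.comp (MonoidHom.inl P P')).comp i, κ (MonoidHom.inl P P' e),
    fun j => t j * κ (MonoidHom.inr P P' b') * (t j)⁻¹, (hκ.comp hl).comp hi, ?_, ?_⟩
  · have := congrArg (fun g => κ (MonoidHom.inl P P' g)) hve
    simpa only [MonoidHom.comp_apply, map_mul, map_inv, map_pow] using this
  · intro j hj
    have he : κ (MonoidHom.inl P P' e) = t j * κ (MonoidHom.inr P P' e') * (t j)⁻¹ := by
      have := ht j hj (CoprodI.of (i := true) (Multiplicative.ofAdd 1))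
      simpa [pair] using this
    have hyj : κ (MonoidHom.inl P P' (i (y j))) = t j * κ (MonoidHom.inr P P' y') * (t j)⁻¹ := by
      have := ht j hj (CoprodI.of (i := false) (Multiplicative.ofAdd 1))
      simpa [pair] using this
    have h1' : (κ (MonoidHom.inr P P' e'))⁻¹ * κ (MonoidHom.inr P P' b') *
        κ (MonoidHom.inr P P' e') = κ (MonoidHom.inr P P' b') ^ 2 := by
      rw [← map_inv, ← map_mul, ← map_mul, ← map_pow, ← map_inv, ← map_mul, ← map_mul, ← map_pow,
        h1]
    have h2' : (κ (MonoidHom.inr P P' b'))⁻¹ * κ (MonoidHom.inr P P' y') *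
        κ (MonoidHom.inr P P' b') = κ (MonoidHom.inr P P' y') ^ 2 := by
      rw [← map_inv, ← map_mul, ← map_mul, ← map_pow, ← map_inv, ← map_mul, ← map_mul, ← map_pow,
        h2]
    constructor
    · rw [he, conj_pow, ← h1']
      group
    · change (t j * κ (MonoidHom.inr P P' b') * (t j)⁻¹)⁻¹ * κ (MonoidHom.inl P P' (i (y j))) *
        (t j * κ (MonoidHom.inr P P' b') * (t j)⁻¹) = κ (MonoidHom.inl P P' (i (y j))) ^ 2
      rw [hyj, conj_pow, ← h2']
      group

end Pool.Agent.MKE
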